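import Pool.Agent.T9h23.Ac.B4

/-!
# Hall's inequality at all abscissas in `f (ℤ)` for almost all monic polynomials of even degree `d ≥ 6`

Let `d ≥ 6` be even and `c > 0` (arbitrarily small). For all but a proportion `O (H ^ (1 - d / 4))` of the monic integer
polynomials `f = t ^ d + a_{d-1} t ^ (d-1) + ... + a_0` with `|a_i| ≤ H ^ (d - i)`, EVERY integer point `(x, y)` of EVERY
curve `y ^ 2 = x ^ 3 + k`, `k ≠ 0`, with `x = f (n) ≠ 0`, `n` an integer of any size, has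
`max (|x|, |y|) ≤ c |k| ^ 3`.

* `|n| ≤ 8 r H`, `d = 2 r` (`T9h23.Ac.small_total`): the number of the abscissas `|x| ≤ Y` with
  `(y ^ 2 - x ^ 3) ^ 2 < A |x|` for some `y` is `O (Y ^ (3 / 4))` (`T9h61.Strong.powers`: they are separated by
  `c |x| ^ (1 / 4)`), and each value is taken at `n` by a proportion `H ^ (-d)` of the polynomials.
* `8 r H ≤ |n| ≤ C H ^ (3 r + 1)` (`T9h23.Ac.mid_total`): the other coefficients being fixed, the values `f (n)` are the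
  integers `w + a_1 n + a_0`, and the short interval which contains them has few such abscissas.
* larger `n` (`T9h23.Ac.largeB`): the expansion of `f (n) ^ (3 / 2)` in `1 / n` has rational coefficients with bounded
  denominators. Its first coefficient of negative degree is linear in `a_0`, with a coefficient which is linear in
  `a_{r-1}` (`T9h23.Ac.lamb_zero`, `T9h23.Ac.be_sub`), so it is at least `C₀ H` for almost all `f`, and then `f (n) ^ 3`
  is far from all squares.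
-/

set_option autoImplicit false

namespace Pool.Agent.Results.MP_f2148a_nt.AllAbscissas

open Finset
open scoped Classical

/-- the value at `n` of the monic polynomial `t ^ d + a_{d-1} t ^ (d-1) + ... + a_0` -/
def value {d : ℕ} (a : Fin d → ℤ) (n : ℤ) : ℤ := n ^ d + ∑ i : Fin d, a i * n ^ (i : ℕ)

/-- the coefficient vectors with `|a_i| ≤ H ^ (d - i)` for all `i < d` -/
noncomputable def Box (d H : ℕ) : Finset (Fin d → ℤ) :=
  Fintype.piFinset fun i => Icc (-((H : ℤ) ^ (d - (i : ℕ)))) ((H : ℤ) ^ (d - (i : ℕ)))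

/-- Hall's inequality with the constant `c` for every integer point of every Mordell curve `y ^ 2 = x ^ 3 + k`,
`k ≠ 0`, whose abscissa `x` is a non-zero value of the polynomial -/
def HallAtAllAbscissas {d : ℕ} (c : ℝ) (a : Fin d → ℤ) : Prop := ∀ n y k : ℤ, k ≠ 0 → value a n ≠ 0 →
  y ^ 2 = (value a n) ^ 3 + k → ((max |value a n| |y| : ℤ) : ℝ) ≤ c * |(k : ℝ)| ^ 3

theorem box_eq (d H : ℕ) : Box d H = T9h23.Ru.wbox d H := by
  ext a
  rw [T9h23.Ru.mem_wbox]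
  unfold Box T9h23.Ru.InBox
  rw [Fintype.mem_piFinset]
  refine forall_congr' fun i => ?_
  rw [mem_Icc, abs_le]

theorem good {d : ℕ} (a : Fin d → ℤ) (c : ℝ) (hc : 0 < c) (A : ℕ) (hA : 2 / c + 1 ≤ A)
    (h : ¬ ∃ n : ℤ, T9h23.Ab.Exc A (T9h23.Ru.mv a n)) : HallAtAllAbscissas c a := by
  intro n y k hk hx heq
  obtain ⟨x, hxd⟩ : ∃ x : ℤ, x = value a n := ⟨_, rfl⟩
  rw [← hxd] at hx heq ⊢
  have h1 : (A : ℤ) * |x| ≤ k ^ 2 := by
    by_contra hcon
    push Not at hcon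
    apply h
    refine ⟨n, y, ?_, ?_⟩
    · intro h1
      apply hk
      have h2 : y ^ 2 = x ^ 3 := by rw [hxd]; exact h1
      linarith
    · have h2 : T9h23.Ru.mv a n = x := hxd.symm
      rw [h2, heq, add_sub_cancel_left]
      exact hcon
  obtain ⟨X, hX⟩ : ∃ X : ℝ, X = |(x : ℝ)| := ⟨_, rfl⟩
  obtain ⟨κ, hκ⟩ : ∃ κ : ℝ, κ = |(k : ℝ)| := ⟨_, rfl⟩
  have hX1 : 1 ≤ X := by rw [hX]; exact_mod_cast Int.one_le_abs hx
  have hκ1 : 1 ≤ κ := by rw [hκ]; exact_mod_cast Int.one_le_abs hk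
  have h2c : 0 < 2 / c := by positivity
  have hA1 : (1 : ℝ) ≤ A := by linarith
  have hA0 : (0 : ℝ) < A := by linarith
  have hAX : A * X ≤ κ ^ 2 := by
    rw [hX, hκ, sq_abs]
    exact_mod_cast h1
  have hcA : 1 / (A : ℝ) ≤ c / 2 := by
    have h2 : 2 / c ≤ (A : ℝ) := by linarith
    rw [div_le_iff₀ hc] at h2
    rw [div_le_div_iff₀ hA0 (by norm_num)]
    linarith
  have hz0 : 0 < κ ^ 2 / A := by positivity
  have hXz : X ≤ κ ^ 2 / A := by
    rw [le_div_iff₀ hA0]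
    linarith
  have hz1 : 1 ≤ κ ^ 2 / A := hX1.trans hXz
  have hκ3 : κ ^ 2 / A ≤ c * κ ^ 3 := by
    calc κ ^ 2 / A = (1 / A) * κ ^ 2 := by ring
      _ ≤ (c / 2) * κ ^ 3 := by
          have : κ ^ 2 ≤ κ ^ 3 := pow_le_pow_right₀ hκ1 (by norm_num)
          gcongr
      _ ≤ c * κ ^ 3 := by
          have : 0 < c * κ ^ 3 := by positivity
          linarith
  have hy : |(y : ℝ)| ≤ c * κ ^ 3 := by
    apply abs_le_of_sq_le_sq _ (by positivity)
    have h2 : (y : ℝ) ^ 2 = (x : ℝ) ^ 3 + k := by exact_mod_cast heq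
    have h3 : (x : ℝ) ^ 3 ≤ X ^ 3 := by
      rw [hX, ← abs_pow]
      exact le_abs_self _
    have h4 : (k : ℝ) ≤ κ := by rw [hκ]; exact le_abs_self _
    have h5 : X ^ 3 ≤ (κ ^ 2 / A) ^ 3 := by gcongr
    have h6 : (κ ^ 2 / A) ^ 3 ≤ (κ ^ 3 / A) ^ 2 := by
      have h7 : (κ ^ 2 / A) ^ 3 = κ ^ 6 / A ^ 3 := by rw [div_pow]; ring
      have h8 : (κ ^ 3 / A) ^ 2 = κ ^ 6 / A ^ 2 := by rw [div_pow]; ring
      rw [h7, h8]
      have h9 : (A : ℝ) ^ 2 ≤ (A : ℝ) ^ 3 := pow_le_pow_right₀ hA1 (by norm_num)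
      gcongr
    have h7 : κ ≤ (κ ^ 3 / A) ^ 2 := by
      have h8 : (κ ^ 3 / A) ^ 2 = κ ^ 2 * (κ ^ 2 / A) ^ 2 := by ring
      rw [h8]
      have h9 : κ ≤ κ ^ 2 := le_self_pow₀ hκ1 (by norm_num)
      have h10 : 1 ≤ (κ ^ 2 / A) ^ 2 := one_le_pow₀ hz1
      nlinarith
    have h8 : κ ^ 3 / A ≤ c / 2 * κ ^ 3 := by
      calc κ ^ 3 / A = (1 / A) * κ ^ 3 := by ring
        _ ≤ _ := by gcongr
    have h9 : (κ ^ 3 / A) ^ 2 ≤ (c / 2 * κ ^ 3) ^ 2 := by gcongr
    have h10 : (c / 2 * κ ^ 3) ^ 2 = (c * κ ^ 3) ^ 2 / 4 := by ring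
    have h11 : 0 ≤ (c * κ ^ 3) ^ 2 := by positivity
    rw [h2]
    linarith
  rw [← hκ, Int.cast_max, Int.cast_abs, Int.cast_abs]
  apply max_le _ hy
  rw [← hX]
  exact hXz.trans hκ3

/-- **Hall's inequality at all abscissas in the image of almost all monic polynomials of even degree.** -/
theorem result (d : ℕ) (hd : Even d) (h6 : 6 ≤ d) (c : ℝ) (hc : 0 < c) : ∃ K : ℝ, ∀ H : ℕ, 1 ≤ H →
    (((Box d H).filter (fun a => ¬ HallAtAllAbscissas c a)).card : ℝ) ≤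
      (Box d H).card * (K * (H : ℝ) ^ (1 - (d : ℝ) / 4)) := by
  obtain ⟨r, rfl⟩ : ∃ r, d = 2 * r := by
    obtain ⟨r, hr⟩ := hd
    exact ⟨r, by omega⟩
  have hr : 3 ≤ r := by omega
  obtain ⟨A, hA⟩ := exists_nat_ge (2 / c + 1)
  obtain ⟨K, -, hK⟩ := T9h23.Ac.finalB r hr A
  refine ⟨K, fun H hH => ?_⟩
  rw [box_eq]
  have hHr : (1 : ℝ) ≤ H := by exact_mod_cast hH
  have e1 : (Real.sqrt H ^ (r - 2))⁻¹ = (H : ℝ) ^ (1 - ((2 * r : ℕ) : ℝ) / 4) := by
    rw [Real.sqrt_eq_rpow, ← Real.rpow_natCast, ← Real.rpow_mul (by linarith), ← Real.rpow_neg (by linarith)]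
    congr 1
    rw [Nat.cast_sub (by omega)]
    push_cast
    ring
  have h1 := hK H hH
  rw [e1] at h1
  refine le_trans ?_ h1
  have h2 : (T9h23.Ru.wbox (2 * r) H).filter (fun a => ¬ HallAtAllAbscissas c a) ⊆
      (T9h23.Ru.wbox (2 * r) H).filter (fun a => ∃ n : ℤ, T9h23.Ab.Exc A (T9h23.Ru.mv a n)) := by
    intro a ha
    rw [mem_filter] at ha ⊢
    refine ⟨ha.1, ?_⟩
    by_contra hcon
    exact ha.2 (good a c hc A hA hcon)
  exact_mod_cast Finset.card_le_card h2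

end Pool.Agent.Results.MP_f2148a_nt.AllAbscissas
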