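import Pool.Agent.T9h23.Ad.D6

/-!
# Hall's inequality at all abscissas in `f (ℤ)` for almost all monic quartic polynomials

Let `c > 0` (arbitrarily small). For all but a proportion `O (H ^ (- 1 / 4))` of the monic integer quartics
`f = t ^ 4 + a_3 t ^ 3 + a_2 t ^ 2 + a_1 t + a_0` with `|a_i| ≤ H ^ (4 - i)`, EVERY integer point `(x, y)` of EVERY
curve `y ^ 2 = x ^ 3 + k`, `k ≠ 0`, with `x = f (n) ≠ 0`, `n` an integer of any size, has
`max (|x|, |y|) ≤ c |k| ^ 3`.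

* `n ^ 2 ≤ H ^ 13` (`T9h23.Ad.low`): the number of the abscissas `|x| ≤ X` with `(y ^ 2 - x ^ 3) ^ 2 < A |x|` for some
  `y` is `O (X ^ (1 / 3 + ε))` (starting file `MP_e734ed_nt.SparseExceptions`), each `x` of the size `n ^ 4` is a value
  at `O (H)` integers near `n`, and at each of them of a proportion
  `O (H⁻¹ (1 / n + 1 / H ^ 4) (1 / n + 1 / H ^ 3) (1 / n + 1 / H ^ 2))` of the quartics.
* `n ^ 2 ≥ H ^ 13` (`T9h23.Ad.large4`): the expansion of `f (n) ^ (3 / 2)` in `1 / n` gives integers `m`, `j` with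
  `m n = L₁ + j` and `j n = L₂ + O (H ^ 9 / n)`, `L₁ = D c₇ (f)`, `L₂ = D c₈ (f)`, `|m| ≤ C H ^ (1 / 2)`,
  `|j| ≤ C H ^ (3 / 2)`; so `m L₂ - j L₁ - j ^ 2 = O (H ^ 3)`. As a function of `a_0` the left side is a quadratic
  polynomial with leading coefficient `3 m D / 8` (`T9h23.Ad.c8_upd`), and the case `m = 0` is a small value of `L₁`.
-/

set_option autoImplicit false

namespace Pool.Agent.Results.MP_f2148a_nt.AllAbscissasOfQuartics

open Finset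
open scoped Classical

/-- the value at `n` of the monic polynomial `t ^ d + a_{d-1} t ^ (d-1) + ... + a_0` -/
def value {d : ℕ} (a : Fin d → ℤ) (n : ℤ) : ℤ := n ^ d + ∑ i : Fin d, a i * n ^ (i : ℕ)

/-- the coefficient vectors with `|a_i| ≤ H ^ (d - i)` for all `i < d` -/
noncomputable def Box (d H : ℕ) : Finset (Fin d → ℤ) :=
  Fintype.piFinset fun i => Icc (-((H : ℤ) ^ (d - (i : ℕ)))) ((H : ℤ) ^ (d - (i : ℕ)))

/-- Hall's inequality with the constant `c` for every integer point of every Mordell curve `y ^ 2 = x ^ 3 + k`,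
`k ≠ 0`, whose abscissa `x` is a non-zero value of the polynomial -/
def HallAtAllAbscissas {d : ℕ} (c : ℝ) (a : Fin d → ℤ) : Prop := ∀ n y k : ℤ, k ≠ 0 → value a n ≠ 0 →
  y ^ 2 = (value a n) ^ 3 + k → ((max |value a n| |y| : ℤ) : ℝ) ≤ c * |(k : ℝ)| ^ 3

theorem box_eq (d H : ℕ) : Box d H = T9h23.Ru.wbox d H := by
  ext a
  rw [T9h23.Ru.mem_wbox]
  unfold Box T9h23.Ru.InBox
  rw [Fintype.mem_piFinset]
  refine forall_congr' fun i => ?_
  rw [mem_Icc, abs_le]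

theorem good {d : ℕ} (a : Fin d → ℤ) (c : ℝ) (hc : 0 < c) (A : ℕ) (hA : 2 / c + 1 ≤ A)
    (h : ¬ ∃ n : ℤ, T9h23.Ab.Exc A (T9h23.Ru.mv a n)) : HallAtAllAbscissas c a := by
  intro n y k hk hx heq
  obtain ⟨x, hxd⟩ : ∃ x : ℤ, x = value a n := ⟨_, rfl⟩
  rw [← hxd] at hx heq ⊢
  have h1 : (A : ℤ) * |x| ≤ k ^ 2 := by
    by_contra hcon
    push Not at hcon
    apply h
    refine ⟨n, y, ?_, ?_⟩
    · intro h1
      apply hk
      have h2 : y ^ 2 = x ^ 3 := by rw [hxd]; exact h1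
      linarith
    · have h2 : T9h23.Ru.mv a n = x := hxd.symm
      rw [h2, heq, add_sub_cancel_left]
      exact hcon
  obtain ⟨X, hX⟩ : ∃ X : ℝ, X = |(x : ℝ)| := ⟨_, rfl⟩
  obtain ⟨κ, hκ⟩ : ∃ κ : ℝ, κ = |(k : ℝ)| := ⟨_, rfl⟩
  have hX1 : 1 ≤ X := by rw [hX]; exact_mod_cast Int.one_le_abs hx
  have hκ1 : 1 ≤ κ := by rw [hκ]; exact_mod_cast Int.one_le_abs hk
  have h2c : 0 < 2 / c := by positivity
  have hA1 : (1 : ℝ) ≤ A := by linarith
  have hA0 : (0 : ℝ) < A := by linarith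
  have hAX : A * X ≤ κ ^ 2 := by
    rw [hX, hκ, sq_abs]
    exact_mod_cast h1
  have hcA : 1 / (A : ℝ) ≤ c / 2 := by
    have h2 : 2 / c ≤ (A : ℝ) := by linarith
    rw [div_le_iff₀ hc] at h2
    rw [div_le_div_iff₀ hA0 (by norm_num)]
    linarith
  have hz0 : 0 < κ ^ 2 / A := by positivity
  have hXz : X ≤ κ ^ 2 / A := by
    rw [le_div_iff₀ hA0]
    linarith
  have hz1 : 1 ≤ κ ^ 2 / A := hX1.trans hXz
  have hκ3 : κ ^ 2 / A ≤ c * κ ^ 3 := by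
    calc κ ^ 2 / A = (1 / A) * κ ^ 2 := by ring
      _ ≤ (c / 2) * κ ^ 3 := by
          have : κ ^ 2 ≤ κ ^ 3 := pow_le_pow_right₀ hκ1 (by norm_num)
          gcongr
      _ ≤ c * κ ^ 3 := by
          have : 0 < c * κ ^ 3 := by positivity
          linarith
  have hy : |(y : ℝ)| ≤ c * κ ^ 3 := by
    apply abs_le_of_sq_le_sq _ (by positivity)
    have h2 : (y : ℝ) ^ 2 = (x : ℝ) ^ 3 + k := by exact_mod_cast heq
    have h3 : (x : ℝ) ^ 3 ≤ X ^ 3 := by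
      rw [hX, ← abs_pow]
      exact le_abs_self _
    have h4 : (k : ℝ) ≤ κ := by rw [hκ]; exact le_abs_self _
    have h5 : X ^ 3 ≤ (κ ^ 2 / A) ^ 3 := by gcongr
    have h6 : (κ ^ 2 / A) ^ 3 ≤ (κ ^ 3 / A) ^ 2 := by
      have h7 : (κ ^ 2 / A) ^ 3 = κ ^ 6 / A ^ 3 := by rw [div_pow]; ring
      have h8 : (κ ^ 3 / A) ^ 2 = κ ^ 6 / A ^ 2 := by rw [div_pow]; ring
      rw [h7, h8]
      have h9 : (A : ℝ) ^ 2 ≤ (A : ℝ) ^ 3 := pow_le_pow_right₀ hA1 (by norm_num)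
      gcongr
    have h7 : κ ≤ (κ ^ 3 / A) ^ 2 := by
      have h8 : (κ ^ 3 / A) ^ 2 = κ ^ 2 * (κ ^ 2 / A) ^ 2 := by ring
      rw [h8]
      have h9 : κ ≤ κ ^ 2 := le_self_pow₀ hκ1 (by norm_num)
      have h10 : 1 ≤ (κ ^ 2 / A) ^ 2 := one_le_pow₀ hz1
      nlinarith
    have h8 : κ ^ 3 / A ≤ c / 2 * κ ^ 3 := by
      calc κ ^ 3 / A = (1 / A) * κ ^ 3 := by ring
        _ ≤ _ := by gcongr
    have h9 : (κ ^ 3 / A) ^ 2 ≤ (c / 2 * κ ^ 3) ^ 2 := by gcongr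
    have h10 : (c / 2 * κ ^ 3) ^ 2 = (c * κ ^ 3) ^ 2 / 4 := by ring
    have h11 : 0 ≤ (c * κ ^ 3) ^ 2 := by positivity
    rw [h2]
    linarith
  rw [← hκ, Int.cast_max, Int.cast_abs, Int.cast_abs]
  apply max_le _ hy
  rw [← hX]
  exact hXz.trans hκ3

/-- **Hall's inequality at all abscissas in the image of almost all monic quartic polynomials.** -/
theorem result (c : ℝ) (hc : 0 < c) : ∃ K : ℝ, ∀ H : ℕ, 1 ≤ H →
    (((Box 4 H).filter (fun a => ¬ HallAtAllAbscissas c a)).card : ℝ) ≤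
      (Box 4 H).card * (K * (H : ℝ) ^ (-(1 / 4) : ℝ)) := by
  obtain ⟨A, hA⟩ := exists_nat_ge (2 / c + 1)
  have hA1 : 1 ≤ A := by
    have h2 : 0 < 2 / c := by positivity
    have h3 : (1 : ℝ) ≤ A := by linarith
    exact_mod_cast h3
  obtain ⟨K, -, hK⟩ := T9h23.Ad.finalD A hA1
  refine ⟨K, fun H hH => ?_⟩
  rw [box_eq]
  have h1 := hK H hH
  rw [← Real.rpow_neg (Nat.cast_nonneg H)] at h1
  refine le_trans ?_ h1
  have h2 : (T9h23.Ru.wbox 4 H).filter (fun a => ¬ HallAtAllAbscissas c a) ⊆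
      (T9h23.Ru.wbox 4 H).filter (fun a => ∃ n : ℤ, T9h23.Ab.Exc A (T9h23.Ru.mv a n)) := by
    intro a ha
    rw [mem_filter] at ha ⊢
    refine ⟨ha.1, ?_⟩
    by_contra hcon
    exact ha.2 (good a c hc A hA hcon)
  exact_mod_cast Finset.card_le_card h2

end Pool.Agent.Results.MP_f2148a_nt.AllAbscissasOfQuartics
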