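import Pool.Agent.T9h23.Pe.O7

/-!
# Hall's inequality at all values of almost all linear perturbations of every monic polynomial of degree `3, 6, 9, ...`

Let `g` be ANY monic integer polynomial of degree `d` divisible by `3`. For all but `O (H ^ (1 + 5 d / (9 (d - 1)) + ε))`
of the `(2 H + 1) ^ 2` pairs of integers `|p|, |q| ≤ H`, the polynomial `f = g + p t + q` has the property that EVERY
integer point `(x, y)` of EVERY curve `y ^ 2 = x ^ 3 + k`, `k ≠ 0`, with `y = f (n)`, `n` an integer of any size, has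
`|x| ≤ 32 |k|` and `max (|x|, |y|) ≤ 182 |k| ^ (3 / 2)`.

* large `n`, `|n| ≥ C H ^ (6 / 5)` (`T9h23.Pe.largeG`, `T9h23.Pe.good`): the distance of `f (n) ^ (2 / 3)` from the
  integers is governed by the first nonzero coefficient of negative degree of its expansion in powers of `1 / n`; it
  comes from `g`, or it is `λ + 2 p / 3`, or (`d = 3`) `λ (p) + 2 q / 3`.
* smaller `n` (`T9h23.Pe.mid`): for `|n| ^ (d - 1) ≤ C H` the count `O (Y ^ (5 / 9 + ε))` of the ordinates `|y| ≤ Y` of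
  the points with `32 |k| < |x|` (`T9h23.Ru.countE`, from a starting file); for the larger ones its version in short
  intervals, at most `20 (T w ^ (-4 / 9) + 1)` such ordinates in `[w - T, w + T]` (`T9h23.Pe.winE`).
-/

set_option autoImplicit false

namespace Pool.Agent.Results.MP_f2148a_nt.AllLinearPerturbations

open Finset Polynomial
open scoped Classical

/-- every integer point of every Mordell curve whose ordinate is a value of the polynomial is small -/
def HallAtAllValues (f : ℤ[X]) : Prop := ∀ n x k : ℤ, k ≠ 0 → (f.eval n) ^ 2 = x ^ 3 + k →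
  |x| ≤ 32 * |k| ∧ (max |x| |f.eval n|) ^ 2 ≤ 32769 * |k| ^ 3

/-- the pairs `(p, q)`, `|p|, |q| ≤ H`, for which `g + p t + q` does not have this property -/
noncomputable def Exceptions (g : ℤ[X]) (H : ℕ) : Finset (ℤ × ℤ) :=
  (Icc (-(H : ℤ)) H ×ˢ Icc (-(H : ℤ)) H).filter (fun c => ¬ HallAtAllValues (g + C c.1 * X + C c.2))

theorem eval_eq (g : ℤ[X]) (hg : g.Monic) (e : ℕ) (he : g.natDegree = 3 * e) (p q n : ℤ) :
    (g + C p * X + C q).eval n = T9h23.Ru.mv (fun i : Fin (3 * e) => g.coeff i) n + (p * n + q) := by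
  rw [eval_add, eval_add, eval_mul, eval_C, eval_C, eval_X, add_assoc]
  congr 1
  unfold T9h23.Ru.mv
  have h1 : g.coeff (3 * e) = 1 := by rw [← he]; exact hg
  rw [eval_eq_sum_range, he, Finset.sum_range_succ, h1, one_mul, add_comm,
    Fin.sum_univ_eq_sum_range (fun i => g.coeff i * n ^ i)]

theorem good (f : ℤ[X]) (h : ¬ ∃ n : ℤ, T9h23.Ru.Bad (f.eval n)) : HallAtAllValues f := by
  intro n x k hk heq
  have hx : |x| ≤ 32 * |k| := by
    by_contra hcon
    push Not at hcon
    apply h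
    refine ⟨n, x, ?_, ?_⟩
    · intro h1
      apply hk
      linarith
    · rw [heq, add_sub_cancel_left]
      exact hcon
  refine ⟨hx, ?_⟩
  have hk1 : 1 ≤ |k| := Int.one_le_abs hk
  have h1 : |x| ^ 2 ≤ 32769 * |k| ^ 3 := by
    have h2 : |x| ^ 2 ≤ (32 * |k|) ^ 2 := pow_le_pow_left₀ (abs_nonneg _) hx 2
    have h3 : |k| ^ 2 ≤ |k| ^ 3 := pow_le_pow_right₀ hk1 (by norm_num)
    nlinarith
  have h2 : |f.eval n| ^ 2 ≤ 32769 * |k| ^ 3 := by
    rw [sq_abs, heq]
    have h3 : x ^ 3 ≤ |x| ^ 3 := by rw [← abs_pow]; exact le_abs_self _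
    have h4 : |x| ^ 3 ≤ (32 * |k|) ^ 3 := pow_le_pow_left₀ (abs_nonneg _) hx 3
    have h5 : k ≤ |k| ^ 3 := (le_abs_self k).trans (le_self_pow₀ hk1 (by norm_num))
    nlinarith
  rcases le_total |x| |f.eval n| with h3 | h3
  · rw [max_eq_right h3]; exact h2
  · rw [max_eq_left h3]; exact h1

/-- **Hall's inequality at all values of almost all linear perturbations of every monic polynomial of degree `3 e`.** -/
theorem result (g : ℤ[X]) (hg : g.Monic) (h3 : 3 ∣ g.natDegree) (h0 : g.natDegree ≠ 0) (ε : ℝ) (hε : 0 < ε) :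
    ∃ K : ℝ, ∀ H : ℕ, 1 ≤ H → ((Exceptions g H).card : ℝ) ≤
      K * (H : ℝ) ^ (1 + 5 / 9 * ((g.natDegree : ℝ) / (g.natDegree - 1)) + ε) := by
  obtain ⟨e, he⟩ := h3
  have he1 : 1 ≤ e := by omega
  obtain ⟨K, -, h⟩ := T9h23.Pe.final e he1 (fun i => g.coeff i) ε hε
  refine ⟨K, fun H hH => ?_⟩
  have h1 := h H hH
  have h2 : T9h23.Pe.th e + ε = 1 + 5 / 9 * ((g.natDegree : ℝ) / (g.natDegree - 1)) + ε := by
    unfold T9h23.Pe.th
    rw [he]
    push_cast
    ring
  rw [h2] at h1
  refine le_trans ?_ h1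
  have h3 : Exceptions g H ⊆ (T9h23.Pe.sq H).filter (fun c => ∃ n : ℤ,
      T9h23.Ru.Bad (T9h23.Ru.mv (fun i : Fin (3 * e) => g.coeff i) n + (c.1 * n + c.2))) := by
    intro c hc
    rw [Exceptions, mem_filter] at hc
    rw [T9h23.Pe.sq, mem_filter]
    refine ⟨hc.1, ?_⟩
    by_contra hcon
    apply hc.2
    apply good
    rintro ⟨n, hn⟩
    rw [eval_eq g hg e he] at hn
    exact hcon ⟨n, hn⟩
  exact_mod_cast Finset.card_le_card h3

end Pool.Agent.Results.MP_f2148a_nt.AllLinearPerturbations
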