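import Pool.Agent.T9h23.Ru.R9

/-!
# Hall's inequality at all values of almost all monic polynomials of degree `6, 9, 12, ...`

For `d = 3 e`, `e ≥ 2`, and all but a proportion `H ^ (-(4 d / 9 - 1) + ε)` of the monic integer polynomials
`f = t ^ d + a_{d-1} t ^ (d-1) + ... + a_0` with `|a_i| ≤ H ^ (d - i)`, EVERY integer point `(x, y)` of EVERY curve
`y ^ 2 = x ^ 3 + k`, `k ≠ 0`, with `y = f (n)`, `n` an integer of any size, has `|x| ≤ 32 |k|` and
`max (|x|, |y|) ≤ 182 |k| ^ (3 / 2)`.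

* `n ≥ C H ^ (2 e + 1)` (`T9h23.Ru.large`): the expansion of `f (n) ^ (2 / 3)` in powers of `1 / n` has rational
  coefficients with bounded denominators; its first coefficient of negative degree is at least `C₀ H` for all but a
  proportion `H ^ (-2 e)` of the polynomials, and then `f (n) ^ 2` is at a distance at least `x / 32` from each cube.
* `n ≤ C H ^ (2 e + 1)` (`T9h23.Ru.block`, `T9h23.Ru.small`): the number of the ordinates `|y| ≤ Y` of the points with
  `32 |k| < |x|` is `O (Y ^ (5 / 9 + ε))` (`Pool.Agent.V60.Hall.count`, a starting file), and the polynomials with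
  `f (n) = y` are counted by the base `n` expansions.
-/

set_option autoImplicit false

namespace Pool.Agent.Results.MP_f2148a_nt.AllValuesOfPolynomials

open Finset
open scoped Classical

/-- the value at `n` of the monic polynomial `t ^ d + a_{d-1} t ^ (d-1) + ... + a_0` -/
def value {d : ℕ} (a : Fin d → ℤ) (n : ℤ) : ℤ := n ^ d + ∑ i : Fin d, a i * n ^ (i : ℕ)

/-- the coefficient vectors with `|a_i| ≤ H ^ (d - i)` for all `i < d` -/
noncomputable def Box (d H : ℕ) : Finset (Fin d → ℤ) :=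
  Fintype.piFinset fun i => Icc (-((H : ℤ) ^ (d - (i : ℕ)))) ((H : ℤ) ^ (d - (i : ℕ)))

/-- every integer point of every Mordell curve whose ordinate is a value of the polynomial is small -/
def HallAtAllValues {d : ℕ} (a : Fin d → ℤ) : Prop := ∀ n x k : ℤ, k ≠ 0 → (value a n) ^ 2 = x ^ 3 + k →
  |x| ≤ 32 * |k| ∧ (max |x| |value a n|) ^ 2 ≤ 32769 * |k| ^ 3

theorem box_eq (d H : ℕ) : Box d H = T9h23.Ru.wbox d H := by
  ext a
  rw [T9h23.Ru.mem_wbox]
  unfold Box T9h23.Ru.InBox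
  rw [Fintype.mem_piFinset]
  refine forall_congr' fun i => ?_
  rw [mem_Icc, abs_le]

theorem good {d : ℕ} (a : Fin d → ℤ) (h : ¬ ∃ n : ℤ, T9h23.Ru.Bad (T9h23.Ru.mv a n)) : HallAtAllValues a := by
  intro n x k hk heq
  have hx : |x| ≤ 32 * |k| := by
    by_contra hcon
    push Not at hcon
    apply h
    refine ⟨n, x, ?_, ?_⟩
    · intro h1
      apply hk
      have h2 : (T9h23.Ru.mv a n) ^ 2 = x ^ 3 + k := heq
      linarith
    · have h2 : (T9h23.Ru.mv a n) ^ 2 = x ^ 3 + k := heq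
      rw [h2, add_sub_cancel_left]
      exact hcon
  refine ⟨hx, ?_⟩
  have hk1 : 1 ≤ |k| := Int.one_le_abs hk
  have h1 : |x| ^ 2 ≤ 32769 * |k| ^ 3 := by
    have h2 : |x| ^ 2 ≤ (32 * |k|) ^ 2 := pow_le_pow_left₀ (abs_nonneg _) hx 2
    have h3 : |k| ^ 2 ≤ |k| ^ 3 := pow_le_pow_right₀ hk1 (by norm_num)
    nlinarith
  have h2 : |value a n| ^ 2 ≤ 32769 * |k| ^ 3 := by
    rw [sq_abs, heq]
    have h3 : x ^ 3 ≤ |x| ^ 3 := by rw [← abs_pow]; exact le_abs_self _
    have h4 : |x| ^ 3 ≤ (32 * |k|) ^ 3 := pow_le_pow_left₀ (abs_nonneg _) hx 3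
    have h5 : k ≤ |k| ^ 3 := (le_abs_self k).trans (le_self_pow₀ hk1 (by norm_num))
    nlinarith
  rcases le_total |x| |value a n| with h3 | h3
  · rw [max_eq_right h3]; exact h2
  · rw [max_eq_left h3]; exact h1

/-- **Hall's inequality at all values of almost all monic polynomials of degree `3 e`.** -/
theorem result (e : ℕ) (he : 2 ≤ e) (ε : ℝ) (hε : 0 < ε) : ∃ H₀ : ℕ, ∀ H : ℕ, H₀ ≤ H →
    (((Box (3 * e) H).filter (fun a => ¬ HallAtAllValues a)).card : ℝ) ≤
      (Box (3 * e) H).card * (H : ℝ) ^ (ε - (4 * (e : ℝ) / 3 - 1)) := by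
  obtain ⟨H₀, h⟩ := T9h23.Ru.final e he ε hε
  refine ⟨H₀, fun H hH => ?_⟩
  rw [box_eq]
  refine le_trans ?_ (h H hH)
  have h1 : (T9h23.Ru.wbox (3 * e) H).filter (fun a => ¬ HallAtAllValues a) ⊆
      (T9h23.Ru.wbox (3 * e) H).filter (fun a => ∃ n : ℤ, T9h23.Ru.Bad (T9h23.Ru.mv a n)) := by
    intro a ha
    rw [mem_filter] at ha ⊢
    refine ⟨ha.1, ?_⟩
    by_contra hcon
    exact ha.2 (good a hcon)
  exact_mod_cast Finset.card_le_card h1

end Pool.Agent.Results.MP_f2148a_nt.AllValuesOfPolynomials
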